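import Mathlib

/-! # Counting in finite semisimple modules -/

set_option autoImplicit false

open Finset Real Module

namespace Pool.Agent.Lib.MP_938ce2_ag_h79

section M1

theorem finHom {R A B : Type} [Ring R] [AddCommGroup A] [AddCommGroup B] [Module R A]
    [Module R B] [Finite A] [Finite B] : Finite (A →ₗ[R] B) := DFunLike.finite _

theorem hom_pos {R A B : Type} [Ring R] [AddCommGroup A] [AddCommGroup B] [Module R A]
    [Module R B] [Finite A] [Finite B] : 0 < Nat.card (A →ₗ[R] B) := by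
  haveI : Finite (A →ₗ[R] B) := finHom
  exact Nat.card_pos

theorem hom_congr {R A B A' B' : Type} [Ring R] [AddCommGroup A] [AddCommGroup B] [Module R A]
    [Module R B] [AddCommGroup A'] [AddCommGroup B'] [Module R A'] [Module R B']
    (e : A ≃ₗ[R] A') (f : B ≃ₗ[R] B') : Nat.card (A →ₗ[R] B) = Nat.card (A' →ₗ[R] B') :=
  Nat.card_congr (LinearEquiv.arrowCongrAddEquiv e f).toEquiv

theorem hom_prod_right {R A B C : Type} [Ring R] [AddCommGroup A] [AddCommGroup B]
    [AddCommGroup C] [Module R A] [Module R B] [Module R C] :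
    Nat.card (A →ₗ[R] B × C) = Nat.card (A →ₗ[R] B) * Nat.card (A →ₗ[R] C) := by
  rw [← Nat.card_prod]
  exact Nat.card_congr (LinearMap.prodEquiv (R := R) ℕ).toEquiv.symm

theorem hom_prod_left {R A B C : Type} [Ring R] [AddCommGroup A] [AddCommGroup B]
    [AddCommGroup C] [Module R A] [Module R B] [Module R C] :
    Nat.card (A × B →ₗ[R] C) = Nat.card (A →ₗ[R] C) * Nat.card (B →ₗ[R] C) := by
  rw [← Nat.card_prod]
  exact Nat.card_congr (LinearMap.coprodEquiv (R := R) ℕ).toEquiv.symm

theorem split_of_ne_zero {R A B : Type} [Ring R] [AddCommGroup A] [AddCommGroup B] [Module R A]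
    [Module R B] [IsSemisimpleModule R A] [IsSemisimpleModule R B] (φ : A →ₗ[R] B)
    (h : φ ≠ 0) :
    ∃ (N A' : Submodule R A) (B' : Submodule R B), IsSimpleModule R N ∧
      Nonempty (A ≃ₗ[R] N × A') ∧ Nonempty (B ≃ₗ[R] N × B') := by
  obtain ⟨K', hK⟩ := exists_isCompl (LinearMap.ker φ)
  have hinj : ∀ x ∈ K', φ x = 0 → x = 0 := by
    intro x hx h0
    have : x ∈ LinearMap.ker φ ⊓ K' := ⟨h0, hx⟩
    rw [hK.inf_eq_bot] at this
    exact this
  rcases IsSemisimpleModule.eq_bot_or_exists_simple_le K' with hbot | ⟨N, hN, hs⟩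
  · exfalso
    apply h
    have : LinearMap.ker φ = ⊤ := by
      have := hK.sup_eq_top
      rwa [hbot, sup_bot_eq] at this
    exact LinearMap.ker_eq_top.1 this
  · obtain ⟨A', hA'⟩ := exists_isCompl N
    have hinjN : Function.Injective (φ.domRestrict N) := by
      rw [← LinearMap.ker_eq_bot, LinearMap.ker_eq_bot']
      intro x hx
      exact Subtype.ext (hinj x.1 (hN x.2) hx)
    obtain ⟨B', hB'⟩ := exists_isCompl (LinearMap.range (φ.domRestrict N))
    refine ⟨N, A', B', hs, ⟨(Submodule.prodEquivOfIsCompl N A' hA').symm⟩,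
      ⟨(Submodule.prodEquivOfIsCompl _ B' hB').symm.trans
        (LinearEquiv.prodCongr (LinearEquiv.ofInjective _ hinjN).symm (LinearEquiv.refl R B'))⟩⟩

theorem iso_aux (R : Type) [Ring R] : ∀ (n : ℕ) (A B : Type) [AddCommGroup A] [AddCommGroup B]
    [Module R A] [Module R B] [Finite A] [Finite B] [IsSemisimpleModule R A]
    [IsSemisimpleModule R B], Nat.card A ≤ n →
    Nat.card (A →ₗ[R] A) * Nat.card (B →ₗ[R] B)
      ≤ Nat.card (A →ₗ[R] B) * Nat.card (B →ₗ[R] A) → Nonempty (A ≃ₗ[R] B) := by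
  intro n
  induction n with
  | zero =>
    intro A B _ _ _ _ _ _ _ _ hn _
    have : 0 < Nat.card A := Nat.card_pos
    omega
  | succ n ih =>
    intro A B _ _ _ _ _ _ _ _ hn h
    -- the step, given a common simple summand
    have step : ∀ (N A' B' : Type) [AddCommGroup N] [AddCommGroup A'] [AddCommGroup B']
        [Module R N] [Module R A'] [Module R B'] [Finite N] [Finite A'] [Finite B']
        [IsSemisimpleModule R A'] [IsSemisimpleModule R B'] (_ : IsSimpleModule R N)
        (_ : A ≃ₗ[R] N × A') (_ : B ≃ₗ[R] N × B'), Nonempty (A ≃ₗ[R] B) := by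
      intro N A' B' _ _ _ _ _ _ _ _ _ _ _ hN eA eB
      haveI : Nontrivial N := IsSimpleModule.nontrivial R N
      have hcard : Nat.card A' ≤ n := by
        have h1 : Nat.card A = Nat.card N * Nat.card A' := by
          rw [Nat.card_congr eA.toEquiv, Nat.card_prod]
        have h2 : 1 < Nat.card N := Finite.one_lt_card
        have h3 : 0 < Nat.card A' := Nat.card_pos
        nlinarith
      have h' : Nat.card (A' →ₗ[R] A') * Nat.card (B' →ₗ[R] B')
          ≤ Nat.card (A' →ₗ[R] B') * Nat.card (B' →ₗ[R] A') := by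
        rw [hom_congr eA eA, hom_congr eB eB, hom_congr eA eB, hom_congr eB eA] at h
        simp only [hom_prod_left, hom_prod_right] at h
        have p1 : 0 < Nat.card (N →ₗ[R] N) := hom_pos
        have p2 : 0 < Nat.card (N →ₗ[R] A') := hom_pos
        have p3 : 0 < Nat.card (N →ₗ[R] B') := hom_pos
        have p4 : 0 < Nat.card (A' →ₗ[R] N) := hom_pos
        have p5 : 0 < Nat.card (B' →ₗ[R] N) := hom_pos
        have p : 0 < Nat.card (N →ₗ[R] N) * Nat.card (N →ₗ[R] N) * Nat.card (N →ₗ[R] A') *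
          Nat.card (N →ₗ[R] B') * Nat.card (A' →ₗ[R] N) * Nat.card (B' →ₗ[R] N) := by positivity
        refine Nat.le_of_mul_le_mul_left ?_ p
        nlinarith [h]
      obtain ⟨e⟩ := ih A' B' hcard h'
      exact ⟨eA.trans ((LinearEquiv.prodCongr (LinearEquiv.refl R N) e).trans eB.symm)⟩
    by_cases h1 : ∃ φ : A →ₗ[R] B, φ ≠ 0
    · obtain ⟨φ, hφ⟩ := h1
      obtain ⟨N, A', B', hN, ⟨eA⟩, ⟨eB⟩⟩ := split_of_ne_zero φ hφ
      exact step N A' B' hN eA eB
    · by_cases h2 : ∃ φ : B →ₗ[R] A, φ ≠ 0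
      · obtain ⟨φ, hφ⟩ := h2
        obtain ⟨N, B', A', hN, ⟨eB⟩, ⟨eA⟩⟩ := split_of_ne_zero φ hφ
        exact step N A' B' hN eA eB
      · push Not at h1 h2
        have c1 : Nat.card (A →ₗ[R] B) = 1 := by
          rw [Nat.card_eq_one_iff_unique]
          exact ⟨⟨fun a b => by rw [h1 a, h1 b]⟩, ⟨0⟩⟩
        have c2 : Nat.card (B →ₗ[R] A) = 1 := by
          rw [Nat.card_eq_one_iff_unique]
          exact ⟨⟨fun a b => by rw [h2 a, h2 b]⟩, ⟨0⟩⟩
        rw [c1, c2] at h
        have p1 : 0 < Nat.card (A →ₗ[R] A) := hom_pos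
        have p2 : 0 < Nat.card (B →ₗ[R] B) := hom_pos
        have e1 : Nat.card (A →ₗ[R] A) = 1 := by nlinarith
        have e2 : Nat.card (B →ₗ[R] B) = 1 := by nlinarith
        rw [Nat.card_eq_one_iff_unique] at e1 e2
        obtain ⟨⟨s1⟩, _⟩ := e1
        obtain ⟨⟨s2⟩, _⟩ := e2
        have hA : ∀ x : A, x = 0 := fun x => LinearMap.congr_fun (s1 LinearMap.id 0) x
        have hB : ∀ x : B, x = 0 := fun x => LinearMap.congr_fun (s2 LinearMap.id 0) x
        refine ⟨LinearEquiv.ofLinearMap 0 0 ?_ ?_⟩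
        · ext x; rw [hB x]; simp
        · ext x; rw [hA x]; simp

variable {R : Type} [Ring R] {A B V : Type} [AddCommGroup A] [AddCommGroup B] [AddCommGroup V]
  [Module R A] [Module R B] [Module R V] [Finite A] [Finite B] [Finite V]

/-- S1 -/
theorem iso_of_card_hom [IsSemisimpleModule R A] [IsSemisimpleModule R B]
    (h : Nat.card (A →ₗ[R] A) * Nat.card (B →ₗ[R] B)
      ≤ Nat.card (A →ₗ[R] B) * Nat.card (B →ₗ[R] A)) : Nonempty (A ≃ₗ[R] B) :=
  iso_aux R (Nat.card A) A B le_rfl h

theorem finEquiv : Finite (A ≃ₗ[R] B) := DFunLike.finite _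

/-- the composite `L ∘ D ∘ U` -/
def lduMap {N A' : Type} [AddCommGroup N] [AddCommGroup A'] [Module R N] [Module R A']
    (p : (A' →ₗ[R] N) × (N →ₗ[R] A') × (N ≃ₗ[R] N) × (A' ≃ₗ[R] A')) : (N × A') ≃ₗ[R] N × A' where
  toFun x := (p.2.2.1 (x.1 + p.1 x.2), p.2.2.2 x.2 + p.2.1 (p.2.2.1 (x.1 + p.1 x.2)))
  map_add' x y := by
    ext
    · simp only [Prod.fst_add, Prod.snd_add, map_add]; abel
    · simp only [Prod.fst_add, Prod.snd_add, map_add]; abel
  map_smul' r x := by
    ext
    · simp only [Prod.smul_fst, Prod.smul_snd, map_smul, RingHom.id_apply, ← smul_add]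
    · simp only [Prod.smul_fst, Prod.smul_snd, map_smul, RingHom.id_apply, ← smul_add]
  invFun y := (p.2.2.1.symm y.1 - p.1 (p.2.2.2.symm (y.2 - p.2.1 y.1)),
    p.2.2.2.symm (y.2 - p.2.1 y.1))
  left_inv x := by
    ext
    · simp
    · simp
  right_inv y := by
    ext
    · simp
    · simp

theorem lduMap_injective {N A' : Type} [AddCommGroup N] [AddCommGroup A'] [Module R N]
    [Module R A'] : Function.Injective (lduMap (R := R) (N := N) (A' := A')) := by
  rintro ⟨u, l, d1, d2⟩ ⟨u', l', d1', d2'⟩ h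
  have hx : ∀ x : N × A', lduMap (u, l, d1, d2) x = lduMap (u', l', d1', d2') x := by
    intro x; rw [h]
  simp only [lduMap, LinearEquiv.coe_mk, LinearMap.coe_mk, AddHom.coe_mk, Prod.mk.injEq] at hx
  have h1 : d1 = d1' := by
    ext x
    have := (hx (x, 0)).1
    simpa using this
  subst h1
  have h2 : u = u' := by
    ext y
    have := (hx (0, y)).1
    simpa using this
  subst h2
  have h3 : l = l' := by
    ext x
    have := (hx (d1.symm x, 0)).2
    simpa using this
  subst h3
  have h4 : d2 = d2' := by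
    ext y
    have := (hx (0, y)).2
    simpa using this
  subst h4
  rfl

theorem card_aut_prod {N A' : Type} [AddCommGroup N] [AddCommGroup A'] [Module R N]
    [Module R A'] [Finite N] [Finite A'] :
    Nat.card (A' →ₗ[R] N) * (Nat.card (N →ₗ[R] A') * (Nat.card (N ≃ₗ[R] N) *
      Nat.card (A' ≃ₗ[R] A'))) ≤ Nat.card ((N × A') ≃ₗ[R] N × A') := by
  rw [← Nat.card_prod, ← Nat.card_prod, ← Nat.card_prod]
  haveI : Finite ((N × A') ≃ₗ[R] N × A') := DFunLike.finite _
  exact Nat.card_le_card_of_injective _ lduMap_injective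

theorem card_aut_simple {N : Type} [AddCommGroup N] [Module R N] [Finite N]
    [IsSimpleModule R N] : Nat.card (N →ₗ[R] N) ≤ Nat.card (N ≃ₗ[R] N) + 1 := by
  classical
  haveI : Finite (N ≃ₗ[R] N) := DFunLike.finite _
  haveI : Finite (Option (N ≃ₗ[R] N)) := inferInstance
  rw [← Finite.card_option]
  refine Nat.card_le_card_of_injective
    (fun f : N →ₗ[R] N => if h : f = 0 then none else
      some (LinearEquiv.ofBijective f (LinearMap.bijective_of_ne_zero h))) ?_
  intro f g hfg
  simp only at hfg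
  by_cases hf : f = 0
  · by_cases hg : g = 0
    · rw [hf, hg]
    · rw [dif_pos hf, dif_neg hg] at hfg
      exact absurd hfg (by simp)
  · by_cases hg : g = 0
    · rw [dif_neg hf, dif_pos hg] at hfg
      exact absurd hfg (by simp)
    · rw [dif_neg hf, dif_neg hg] at hfg
      have := Option.some.inj hfg
      ext x
      exact LinearEquiv.congr_fun this x

theorem end_aux (R : Type) [Ring R] (θ : ℝ) (h0 : 0 ≤ θ) (h1 : θ ≤ 1) :
    ∀ (n : ℕ) (A : Type) [AddCommGroup A] [Module R A] [Finite A] [IsSemisimpleModule R A],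
    Nat.card A ≤ n →
    (∀ (N : Type) [AddCommGroup N] [Module R N] [Finite N] (f : N →ₗ[R] A),
      Function.Injective f → IsSimpleModule R N →
      (Nat.card (N →ₗ[R] N) : ℝ) ^ θ ≤ (Nat.card (N →ₗ[R] N) : ℝ) - 1) →
    (Nat.card (A →ₗ[R] A) : ℝ) ^ θ ≤ Nat.card (A ≃ₗ[R] A) := by
  intro n
  induction n with
  | zero =>
    intro A _ _ _ _ hn _
    have : 0 < Nat.card A := Nat.card_pos
    omega
  | succ n ih =>
    intro A _ _ _ _ hn hN
    by_cases htriv : Subsingleton A
    · have c1 : Nat.card (A →ₗ[R] A) = 1 := by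
        rw [Nat.card_eq_one_iff_unique]
        exact ⟨⟨fun a b => by ext x; exact Subsingleton.elim _ _⟩, ⟨0⟩⟩
      have c2 : 1 ≤ Nat.card (A ≃ₗ[R] A) := by
        haveI : Finite (A ≃ₗ[R] A) := DFunLike.finite _
        exact Nat.card_pos
      rw [c1]
      simp only [Nat.cast_one, Real.one_rpow]
      exact_mod_cast c2
    · haveI : Nontrivial A := not_subsingleton_iff_nontrivial.1 htriv
      obtain ⟨N, hs⟩ := IsSemisimpleModule.exists_simple_submodule R A
      obtain ⟨A', hA'⟩ := exists_isCompl N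
      have eA : A ≃ₗ[R] N × A' := (Submodule.prodEquivOfIsCompl N A' hA').symm
      haveI : Nontrivial N := IsSimpleModule.nontrivial R N
      have hcard : Nat.card A' ≤ n := by
        have h1 : Nat.card A = Nat.card N * Nat.card A' := by
          rw [Nat.card_congr eA.toEquiv, Nat.card_prod]
        have h2 : 1 < Nat.card N := Finite.one_lt_card
        have h3 : 0 < Nat.card A' := Nat.card_pos
        nlinarith
      have ihA := ih A' hcard (by
        intro S _ _ _ f hf hS
        exact hN S (A'.subtype.comp f) (by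
          rw [LinearMap.coe_comp]
          exact Function.Injective.comp (Subtype.val_injective) hf) hS)
      have hNN := hN N N.subtype Subtype.val_injective hs
      have haut := card_aut_prod (R := R) (N := N) (A' := A')
      have hsimp := card_aut_simple (R := R) (N := N)
      have hcongr : Nat.card (A ≃ₗ[R] A) = Nat.card ((N × A') ≃ₗ[R] N × A') := by
        refine Nat.card_congr ⟨fun f => eA.symm.trans (f.trans eA),
          fun f => eA.trans (f.trans eA.symm), fun f => ?_, fun f => ?_⟩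
        · ext x; simp
        · refine LinearEquiv.ext fun x => ?_
          simp
      rw [hcongr, hom_congr eA eA]
      simp only [hom_prod_left, hom_prod_right]
      have p1 : 0 < Nat.card (N →ₗ[R] N) := hom_pos
      have p2 : 0 < Nat.card (N →ₗ[R] A') := hom_pos
      have p4 : 0 < Nat.card (A' →ₗ[R] N) := hom_pos
      have hle : ∀ t : ℕ, 0 < t → (t : ℝ) ^ θ ≤ t := by
        intro t ht
        have h1t : (1 : ℝ) ≤ t := by exact_mod_cast ht
        calc (t : ℝ) ^ θ ≤ (t : ℝ) ^ (1 : ℝ) := Real.rpow_le_rpow_of_exponent_le h1t h1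
          _ = t := Real.rpow_one _
      push_cast
      rw [Real.mul_rpow (by positivity) (by positivity), Real.mul_rpow (by positivity)
        (by positivity), Real.mul_rpow (by positivity) (by positivity)]
      have hA1 : ((Nat.card (N →ₗ[R] N) : ℝ)) ^ θ ≤ Nat.card (N ≃ₗ[R] N) := by
        refine hNN.trans ?_
        have : ((Nat.card (N →ₗ[R] N) : ℕ) : ℝ) ≤ Nat.card (N ≃ₗ[R] N) + 1 := by
          exact_mod_cast hsimp
        linarith
      have haut' : (Nat.card (A' →ₗ[R] N) : ℝ) * (Nat.card (N →ₗ[R] A') *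
          (Nat.card (N ≃ₗ[R] N) * Nat.card (A' ≃ₗ[R] A'))) ≤
          Nat.card ((N × A') ≃ₗ[R] N × A') := by exact_mod_cast haut
      refine le_trans ?_ haut'
      have q1 := hle _ p2
      have q2 := hle _ p4
      have r1 : (0:ℝ) ≤ ((Nat.card (N →ₗ[R] N) : ℝ)) ^ θ := by positivity
      have r2 : (0:ℝ) ≤ ((Nat.card (N →ₗ[R] A') : ℝ)) ^ θ := by positivity
      have r3 : (0:ℝ) ≤ ((Nat.card (A' →ₗ[R] N) : ℝ)) ^ θ := by positivity
      have r4 : (0:ℝ) ≤ ((Nat.card (A' →ₗ[R] A') : ℝ)) ^ θ := by positivity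
      calc _ = ((Nat.card (A' →ₗ[R] N) : ℝ)) ^ θ * (((Nat.card (N →ₗ[R] A') : ℝ)) ^ θ *
            (((Nat.card (N →ₗ[R] N) : ℝ)) ^ θ * ((Nat.card (A' →ₗ[R] A') : ℝ)) ^ θ)) := by ring
        _ ≤ _ := by gcongr

/-- S2 -/
theorem card_end_rpow_le_card_aut [IsSemisimpleModule R A] (θ : ℝ) (h0 : 0 ≤ θ) (h1 : θ ≤ 1)
    (hN : ∀ N : Submodule R A, IsSimpleModule R N →
      (Nat.card (N →ₗ[R] N) : ℝ) ^ θ ≤ (Nat.card (N →ₗ[R] N) : ℝ) - 1) :
    (Nat.card (A →ₗ[R] A) : ℝ) ^ θ ≤ Nat.card (A ≃ₗ[R] A) := by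
  refine end_aux R θ h0 h1 (Nat.card A) A le_rfl ?_
  intro N _ _ _ f hf hs
  have e := LinearEquiv.ofInjective f hf
  have := hN (LinearMap.range f) (IsSimpleModule.congr e.symm)
  rwa [← hom_congr e e] at this

/-- S3 -/
theorem card_submodules_iso_le :
    Nat.card {U : Submodule R V // Nonempty (A ≃ₗ[R] U)} * Nat.card (A ≃ₗ[R] A)
      ≤ Nat.card (A →ₗ[R] V) := by
  classical
  rw [← Nat.card_prod]
  haveI : Finite (A →ₗ[R] V) := finHom
  refine Nat.card_le_card_of_injective
    (fun p : {U : Submodule R V // Nonempty (A ≃ₗ[R] U)} × (A ≃ₗ[R] A) =>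
      p.1.1.subtype.comp ((p.2.trans p.1.2.some).toLinearMap)) ?_
  rintro ⟨U, s⟩ ⟨U', s'⟩ h
  simp only at h
  have hr : ∀ (U : {U : Submodule R V // Nonempty (A ≃ₗ[R] U)}) (s : A ≃ₗ[R] A),
      LinearMap.range (U.1.subtype.comp ((s.trans U.2.some).toLinearMap)) = U.1 := by
    intro U s
    rw [LinearMap.range_comp, LinearEquiv.range, Submodule.map_top, Submodule.range_subtype]
  have hU : U = U' := by
    apply Subtype.ext
    rw [← hr U s, ← hr U' s', h]
  subst hU
  have hs : s = s' := by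
    ext x
    have := LinearMap.congr_fun h x
    simp only [LinearMap.comp_apply, LinearEquiv.coe_coe, LinearEquiv.trans_apply,
      Submodule.subtype_apply] at this
    exact U.2.some.injective (Subtype.ext this)
  rw [hs]

end M1

end Pool.Agent.Lib.MP_938ce2_ag_h79
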