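import Mathlib

/-! # Nilpotent groups of order prime to 6 acting on simple modules -/

set_option autoImplicit false

open Finset Real Module

namespace Pool.Agent.Lib.MP_938ce2_ag_h79

/-- N1 -/
theorem prime_dvd_card_of_faithful {P Ω : Type} [Group P] [Fintype P] [Group.IsNilpotent P]
    [Fintype Ω] [MulAction P Ω] [MulAction.IsPretransitive P Ω] [FaithfulSMul P Ω] [Nonempty Ω]
    (q : ℕ) (hq : q.Prime) (hd : q ∣ Fintype.card P) : q ∣ Fintype.card Ω := by
  by_contra hcon
  haveI : Fact q.Prime := ⟨hq⟩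
  have hnorm : ∀ (p : ℕ) (_ : Fact p.Prime) (Q : Sylow p P), (Q : Subgroup P).Normal :=
    ((Group.isNilpotent_of_finite_tfae (G := P)).out 0 3).1 ‹Group.IsNilpotent P›
  obtain ⟨Q⟩ : Nonempty (Sylow q P) := inferInstance
  haveI hQ := hnorm q inferInstance Q
  have hcon' : ¬ q ∣ Nat.card Ω := by rwa [Nat.card_eq_fintype_card]
  obtain ⟨x, hx⟩ := Q.isPGroup'.nonempty_fixed_point_of_prime_not_dvd_card Ω hcon'
  have hfix : ∀ (g : P), g ∈ (Q : Subgroup P) → ∀ y : Ω, g • y = y := by
    intro g hg y
    obtain ⟨σ, rfl⟩ := MulAction.exists_smul_eq P x y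
    have h1 : σ⁻¹ * g * σ ∈ (Q : Subgroup P) := by
      have := hQ.conj_mem g hg σ⁻¹
      simpa using this
    have h2 : (σ⁻¹ * g * σ) • x = x := hx ⟨_, h1⟩
    calc g • σ • x = σ • ((σ⁻¹ * g * σ) • x) := by
          simp only [smul_smul]
          congr 1
          group
      _ = σ • x := by rw [h2]
  have hone : ∀ g ∈ (Q : Subgroup P), g = 1 := by
    intro g hg
    apply FaithfulSMul.eq_of_smul_eq_smul (α := Ω)
    intro y
    rw [hfix g hg y, one_smul]
  have hdQ : q ∣ Nat.card Q := by
    apply Q.dvd_card_of_dvd_card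
    rwa [Nat.card_eq_fintype_card]
  have : Nat.card Q = 1 := by
    rw [Nat.card_eq_one_iff_unique]
    refine ⟨⟨fun a b => Subtype.ext ?_⟩, ⟨1⟩⟩
    rw [hone a.1 a.2, hone b.1 b.2]
  rw [this] at hdQ
  exact hq.one_lt.ne' (Nat.dvd_one.1 hdQ)

/-- N2 -/
theorem exists_central {P S : Type} [Group P] [Fintype P] [Group.IsNilpotent P]
    (hcop : (Fintype.card P).Coprime 6) [AddCommGroup S] [Module (MonoidAlgebra ℚ P) S]
    [IsSimpleModule (MonoidAlgebra ℚ P) S]
    (hnt : ∃ (σ : P) (s : S), MonoidAlgebra.single σ (1 : ℚ) • s ≠ s) :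
    ∃ (z : P) (l : ℕ), l.Prime ∧ 5 ≤ l ∧
      (∀ (σ : P) (s : S), MonoidAlgebra.single (z * σ) (1 : ℚ) • s
        = MonoidAlgebra.single (σ * z) (1 : ℚ) • s) ∧
      (∀ s : S, ∑ i ∈ range l, MonoidAlgebra.single (z ^ i) (1 : ℚ) • s = 0) := by
  classical
  letI act : MulAction P S := MulAction.compHom S (MonoidAlgebra.of ℚ P)
  have hact : ∀ (σ : P) (s : S), MonoidAlgebra.single σ (1 : ℚ) • s = σ • s := fun σ s => rfl
  simp only [hact] at hnt ⊢
  have hlin : ∀ (σ : P) (s t : S), σ • (s - t) = σ • s - σ • t := by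
    intro σ s t
    rw [← hact, ← hact, ← hact, smul_sub]
  set f : P →* Equiv.Perm S := MulAction.toPermHom P S with hf
  have hfs : ∀ (σ : P) (s : S), f σ s = σ • s := fun σ s => rfl
  haveI hH : Group.IsNilpotent f.range :=
    Group.nilpotent_of_surjective f.rangeRestrict f.rangeRestrict_surjective
  haveI hfin : Finite f.range := Finite.of_surjective _ f.rangeRestrict_surjective
  haveI hntH : Nontrivial f.range := by
    obtain ⟨σ, s, h⟩ := hnt
    refine ⟨⟨f.rangeRestrict σ, 1, fun he => h ?_⟩⟩
    have : f σ = 1 := congrArg Subtype.val he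
    rw [← hfs, this]
    rfl
  have hcen : Subgroup.center f.range ≠ ⊥ :=
    Group.IsNilpotent.center_ne_bot _
  have hcard : Nat.card (Subgroup.center f.range) ≠ 1 := by
    intro h
    exact hcen ((Subgroup.card_eq_one).1 h)
  obtain ⟨l, hl, hld⟩ := Nat.exists_prime_and_dvd hcard
  haveI : Fact l.Prime := ⟨hl⟩
  obtain ⟨w, hw⟩ := exists_prime_orderOf_dvd_card' (G := Subgroup.center f.range) l hld
  obtain ⟨z, hz⟩ := (w : f.range).2
  -- l divides |P|
  have hlP : l ∣ Fintype.card P := by
    have h1 : Nat.card (Subgroup.center f.range) ∣ Nat.card f.range :=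
      Subgroup.card_subgroup_dvd_card _
    have h2 : Nat.card f.range ∣ Nat.card P := Subgroup.card_range_dvd f
    rw [← Nat.card_eq_fintype_card]
    exact hld.trans (h1.trans h2)
  have hl5 : 5 ≤ l := by
    have hc : Nat.Coprime l 6 := Nat.Coprime.coprime_dvd_left hlP hcop
    have h2 : l ≠ 2 := by rintro rfl; norm_num at hc
    have h3 : l ≠ 3 := by rintro rfl; norm_num at hc
    have h4 : l ≠ 4 := by rintro rfl; norm_num at hc
    have := hl.two_le
    omega
  have hcomm : ∀ (σ : P) (s : S), (z * σ) • s = (σ * z) • s := by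
    intro σ s
    have h1 := Subgroup.mem_center_iff.1 w.2 (f.rangeRestrict σ)
    have h2 : f σ * f z = f z * f σ := by
      rw [hz]
      exact congrArg Subtype.val h1
    rw [← hfs, ← hfs, map_mul, map_mul, h2]
  have hzl : ∀ s : S, (z ^ l) • s = s := by
    intro s
    have h1 : w ^ l = 1 := by rw [← hw]; exact pow_orderOf_eq_one w
    have h2 : (f z) ^ l = 1 := by
      rw [hz]
      have := congrArg (fun u : Subgroup.center f.range => ((u : f.range) : Equiv.Perm S)) h1
      simpa using this
    rw [← hfs, map_pow, h2]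
    rfl
  have hz1 : ∃ s : S, z • s ≠ s := by
    by_contra hcon
    push Not at hcon
    have h1 : f z = 1 := by
      ext s
      rw [hfs, hcon s]
      rfl
    have h2 : w = 1 := by
      apply Subtype.ext
      apply Subtype.ext
      rw [← hz, h1]
      rfl
    rw [h2, orderOf_one] at hw
    exact hl.one_lt.ne hw
  -- the linear map `z - 1`
  have hmul : ∀ (σ : P) (a : ℚ) (s : S), z • (MonoidAlgebra.single σ a • s) =
      MonoidAlgebra.single σ a • (z • s) := by
    intro σ a s
    have e1 : MonoidAlgebra.single σ a • s = σ • (MonoidAlgebra.single (1 : P) a • s) := by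
      rw [← hact, smul_smul, MonoidAlgebra.single_mul_single, one_mul, mul_one]
    have e2 : MonoidAlgebra.single σ a • (z • s) =
        σ • (z • (MonoidAlgebra.single (1 : P) a • s)) := by
      rw [← hact, ← hact, ← hact, smul_smul, smul_smul, smul_smul, MonoidAlgebra.single_mul_single,
        MonoidAlgebra.single_mul_single, MonoidAlgebra.single_mul_single]
      simp
    rw [e1, e2, smul_smul, smul_smul, hcomm]
  have hmul' : ∀ (r : MonoidAlgebra ℚ P) (s : S), z • (r • s) = r • (z • s) := by
    intro r s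
    induction r using MonoidAlgebra.induction_linear with
    | zero => rw [zero_smul, zero_smul, ← hact, smul_zero]
    | add a b ha hb => rw [add_smul, add_smul, ← ha, ← hb, ← hact, ← hact, ← hact, smul_add]
    | single σ a => exact hmul σ a s
  let g : S →ₗ[MonoidAlgebra ℚ P] S :=
    { toFun := fun s => z • s - s
      map_add' := by
        intro s t
        rw [← hact, ← hact, ← hact, smul_add]
        abel
      map_smul' := by
        intro r s
        simp only [RingHom.id_apply]
        rw [hmul', smul_sub] }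
  have hg : g ≠ 0 := by
    intro h
    obtain ⟨s, hs⟩ := hz1
    apply hs
    have : g s = 0 := by rw [h]; rfl
    exact sub_eq_zero.1 this
  have hbij := LinearMap.bijective_of_ne_zero hg
  refine ⟨z, l, hl, hl5, hcomm, ?_⟩
  intro s
  obtain ⟨t, rfl⟩ := hbij.2 s
  have hgt : g t = z • t - t := rfl
  rw [hgt]
  simp only [hlin, smul_smul, ← pow_succ]
  rw [sum_range_sub (fun i => z ^ i • t) l, hzl, pow_zero, one_smul, sub_self]

/-- N3 -/
theorem four_le_finrank_end {P S : Type} [Group P] [Fintype P] [Group.IsNilpotent P]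
    (hcop : (Fintype.card P).Coprime 6) [AddCommGroup S] [Module ℚ S]
    [Module (MonoidAlgebra ℚ P) S] [IsScalarTower ℚ (MonoidAlgebra ℚ P) S] [Module.Finite ℚ S]
    [IsSimpleModule (MonoidAlgebra ℚ P) S]
    (hnt : ∃ (σ : P) (s : S), MonoidAlgebra.single σ (1 : ℚ) • s ≠ s) :
    4 ≤ finrank ℚ (S →ₗ[MonoidAlgebra ℚ P] S) := by
  classical
  obtain ⟨z, l, hl, hl5, hcomm, hsum⟩ := exists_central hcop hnt
  haveI : Fact l.Prime := ⟨hl⟩
  haveI : Nontrivial S := IsSimpleModule.nontrivial (MonoidAlgebra ℚ P) S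
  haveI hfin : Module.Finite ℚ (S →ₗ[MonoidAlgebra ℚ P] S) := by
    haveI : Module.Finite ℚ (S →ₗ[ℚ] S) := inferInstance
    exact Module.Finite.of_injective
      (LinearMap.restrictScalarsₗ ℚ (MonoidAlgebra ℚ P) S S ℚ)
      (LinearMap.restrictScalars_injective ℚ)
  have hmul' : ∀ (r : MonoidAlgebra ℚ P) (s : S), MonoidAlgebra.single z (1 : ℚ) • (r • s) =
      r • (MonoidAlgebra.single z (1 : ℚ) • s) := by
    intro r s
    induction r using MonoidAlgebra.induction_linear with
    | zero => simp
    | add a b ha hb => rw [add_smul, add_smul, smul_add, ha, hb]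
    | single σ a =>
      have e1 : MonoidAlgebra.single z (1 : ℚ) * MonoidAlgebra.single σ a =
          MonoidAlgebra.single (z * σ) (1 : ℚ) * MonoidAlgebra.single (1 : P) a := by
        simp
      have e2 : MonoidAlgebra.single σ a * MonoidAlgebra.single z (1 : ℚ) =
          MonoidAlgebra.single (σ * z) (1 : ℚ) * MonoidAlgebra.single (1 : P) a := by
        simp
      rw [smul_smul, smul_smul, e1, e2, mul_smul, mul_smul, hcomm]
  let ζ : Module.End (MonoidAlgebra ℚ P) S :=
    { toFun := fun s => MonoidAlgebra.single z (1 : ℚ) • s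
      map_add' := by intro s t; rw [smul_add]
      map_smul' := by intro r s; simp only [RingHom.id_apply]; exact hmul' r s }
  have hζ : ∀ (i : ℕ) (s : S), (ζ ^ i) s = MonoidAlgebra.single (z ^ i) (1 : ℚ) • s := by
    intro i
    induction i with
    | zero =>
      intro s
      rw [pow_zero, pow_zero, ← MonoidAlgebra.one_def, one_smul]
      rfl
    | succ i ih =>
      intro s
      rw [pow_succ, Module.End.mul_apply, ih]
      change MonoidAlgebra.single (z ^ i) (1 : ℚ) • (MonoidAlgebra.single z (1 : ℚ) • s) = _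
      rw [smul_smul, MonoidAlgebra.single_mul_single, one_mul, ← pow_succ]
  have haev : Polynomial.aeval ζ (Polynomial.cyclotomic l ℚ) = 0 := by
    rw [Polynomial.cyclotomic_prime, map_sum]
    ext s
    simp only [map_pow, Polynomial.aeval_X, LinearMap.sum_apply, hζ, LinearMap.zero_apply]
    exact hsum s
  have hirr := Polynomial.cyclotomic.irreducible_rat (n := l) hl.pos
  have hint : IsIntegral ℚ ζ := by
    haveI : Module.Finite ℚ (Module.End (MonoidAlgebra ℚ P) S) := hfin
    exact Algebra.IsIntegral.isIntegral ζ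
  haveI : Nontrivial (Module.End (MonoidAlgebra ℚ P) S) := inferInstance
  have hmin : minpoly ℚ ζ ∣ Polynomial.cyclotomic l ℚ := minpoly.dvd ℚ ζ haev
  have hass : Associated (minpoly ℚ ζ) (Polynomial.cyclotomic l ℚ) := by
    refine (hirr.dvd_iff.1 hmin).resolve_left ?_ |>.symm
    exact minpoly.not_isUnit ℚ ζ
  have hdeg : (minpoly ℚ ζ).natDegree = l - 1 := by
    rw [Polynomial.natDegree_eq_of_degree_eq (Polynomial.degree_eq_degree_of_associated hass),
      Polynomial.natDegree_cyclotomic, Nat.totient_prime hl]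
  have hli := linearIndependent_pow (K := ℚ) ζ
  have := hli.fintype_card_le_finrank
  rw [Fintype.card_fin, hdeg] at this
  have h4 : 4 ≤ l - 1 := by omega
  exact h4.trans this

end Pool.Agent.Lib.MP_938ce2_ag_h79
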