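import Mathlib

/-!
# MP_938ce2_ag: parity and size of simple modules of groups of odd order
-/

set_option autoImplicit false
set_option linter.unusedSectionVars false

namespace Pool.Agent.Lib.MP_938ce2_ag_h79

open Module Matrix

section Trace

variable {ι : Type} [Fintype ι] [DecidableEq ι]

/-- the operator `X ↦ A * Xᵀ * B` -/
noncomputable def opT (A B : Matrix ι ι ℚ) : Matrix ι ι ℚ →ₗ[ℚ] Matrix ι ι ℚ where
  toFun X := A * Xᵀ * B
  map_add' X Y := by rw [transpose_add, mul_add, add_mul]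
  map_smul' c X := by
    rw [transpose_smul, Matrix.mul_smul, Matrix.smul_mul, RingHom.id_apply]

/-- the operator `X ↦ A * X * B` -/
noncomputable def opN (A B : Matrix ι ι ℚ) : Matrix ι ι ℚ →ₗ[ℚ] Matrix ι ι ℚ where
  toFun X := A * X * B
  map_add' X Y := by rw [mul_add, add_mul]
  map_smul' c X := by
    rw [Matrix.mul_smul, Matrix.smul_mul, RingHom.id_apply]

lemma stdBasis_repr (X : Matrix ι ι ℚ) (p : ι × ι) :
    (Matrix.stdBasis ℚ ι ι).repr X p = X p.1 p.2 := by
  obtain ⟨i, j⟩ := p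
  simp [Matrix.stdBasis]

lemma trace_opT (A B : Matrix ι ι ℚ) : LinearMap.trace ℚ _ (opT A B) = (A * Bᵀ).trace := by
  rw [LinearMap.trace_eq_matrix_trace ℚ (Matrix.stdBasis ℚ ι ι), Matrix.trace, Matrix.trace,
    Fintype.sum_prod_type]
  refine Finset.sum_congr rfl fun i _ => ?_
  rw [Matrix.diag_apply, Matrix.mul_apply]
  refine Finset.sum_congr rfl fun j _ => ?_
  rw [Matrix.diag_apply, LinearMap.toMatrix_apply, stdBasis_repr, Matrix.stdBasis_eq_single]
  show (A * (Matrix.single i j (1 : ℚ))ᵀ * B) i j = A i j * Bᵀ j i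
  rw [Matrix.transpose_single, Matrix.mul_apply, Finset.sum_eq_single i]
  · rw [Matrix.mul_apply, Finset.sum_eq_single j]
    · simp
    · intro b _ hb
      rw [Matrix.single_apply_of_ne, mul_zero]
      rintro ⟨h, -⟩
      exact hb h.symm
    · intro h
      exact absurd (Finset.mem_univ j) h
  · intro b _ hb
    rw [Matrix.mul_apply, Finset.sum_eq_zero, zero_mul]
    intro x _
    rw [Matrix.single_apply_of_ne, mul_zero]
    rintro ⟨-, h⟩
    exact hb h.symm
  · intro h
    exact absurd (Finset.mem_univ i) h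

variable {P : Type} [Group P] [Fintype P] (ρ : P →* Matrix ι ι ℚ)

/-- the space of invariant bilinear forms -/
def inv : Submodule ℚ (Matrix ι ι ℚ) where
  carrier := {X | ∀ σ : P, (ρ σ)ᵀ * X * ρ σ = X}
  add_mem' := by
    intro X Y hX hY σ
    rw [mul_add, add_mul, hX σ, hY σ]
  zero_mem' := by
    intro σ
    rw [mul_zero, zero_mul]
  smul_mem' := by
    intro c X hX σ
    rw [Matrix.mul_smul, Matrix.smul_mul, hX σ]

/-- The space of invariant bilinear forms of a representation without invariants of a group of odd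
order has even dimension: transposition has trace zero on it. -/
theorem even_inv (hP : Odd (Fintype.card P)) (hsum : ∑ σ, ρ σ = 0) :
    Even (finrank ℚ (inv ρ)) := by
  have hn : (Fintype.card P : ℚ) ≠ 0 := by exact_mod_cast Fintype.card_ne_zero
  set n : ℚ := (Fintype.card P : ℚ) with hnn
  -- the sum operators
  let A : Matrix ι ι ℚ →ₗ[ℚ] Matrix ι ι ℚ := ∑ σ : P, opN (ρ σ)ᵀ (ρ σ)
  let T : Matrix ι ι ℚ →ₗ[ℚ] Matrix ι ι ℚ := ∑ σ : P, opT (ρ σ)ᵀ (ρ σ)
  have hA : ∀ X, A X = ∑ σ : P, (ρ σ)ᵀ * X * ρ σ := by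
    intro X
    show (∑ σ : P, opN (ρ σ)ᵀ (ρ σ)) X = _
    rw [LinearMap.sum_apply]
    rfl
  have hT : ∀ X, T X = ∑ σ : P, (ρ σ)ᵀ * Xᵀ * ρ σ := by
    intro X
    show (∑ σ : P, opT (ρ σ)ᵀ (ρ σ)) X = _
    rw [LinearMap.sum_apply]
    rfl
  have hAinv : ∀ X, A X ∈ inv ρ := by
    intro X τ
    rw [hA, Finset.mul_sum, Finset.sum_mul]
    rw [← Equiv.sum_comp (Equiv.mulRight τ) (fun σ : P => (ρ σ)ᵀ * X * ρ σ)]
    refine Finset.sum_congr rfl fun σ _ => ?_
    rw [Equiv.coe_mulRight, map_mul, transpose_mul]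
    simp only [Matrix.mul_assoc]
  have hTA : ∀ X, T X = A Xᵀ := by
    intro X
    rw [hT, hA]
  have hAid : ∀ X ∈ inv ρ, A X = n • X := by
    intro X hX
    rw [hA, Finset.sum_congr rfl fun σ _ => hX σ, Finset.sum_const, Finset.card_univ, hnn,
      ← Nat.cast_smul_eq_nsmul ℚ]
  have htr : ∀ X ∈ inv ρ, Xᵀ ∈ inv ρ := by
    intro X hX σ
    have := congrArg transpose (hX σ)
    rw [transpose_mul, transpose_mul, transpose_transpose, ← Matrix.mul_assoc] at this
    exact this
  have hAtr : ∀ X, (A X)ᵀ = A Xᵀ := by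
    intro X
    rw [hA, hA, transpose_sum]
    refine Finset.sum_congr rfl fun σ _ => ?_
    rw [transpose_mul, transpose_mul, transpose_transpose, Matrix.mul_assoc]
  -- the projections
  let p : Matrix ι ι ℚ →ₗ[ℚ] Matrix ι ι ℚ := n⁻¹ • A
  have hp : ∀ X, p X = n⁻¹ • A X := fun X => rfl
  have hproj : LinearMap.IsProj (inv ρ) p := by
    refine ⟨fun X => Submodule.smul_mem _ _ (hAinv X), fun X hX => ?_⟩
    rw [hp, hAid X hX, smul_smul, inv_mul_cancel₀ hn, one_smul]
  let W : Submodule ℚ (Matrix ι ι ℚ) :=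
    { carrier := {X | X ∈ inv ρ ∧ Xᵀ = X}
      add_mem' := by
        rintro X Y ⟨h1, h2⟩ ⟨h3, h4⟩
        exact ⟨Submodule.add_mem _ h1 h3, by rw [transpose_add, h2, h4]⟩
      zero_mem' := ⟨Submodule.zero_mem _, transpose_zero⟩
      smul_mem' := by
        rintro c X ⟨h1, h2⟩
        exact ⟨Submodule.smul_mem _ _ h1, by rw [transpose_smul, h2]⟩ }
  let e : Matrix ι ι ℚ →ₗ[ℚ] Matrix ι ι ℚ := (2 * n)⁻¹ • (A + T)
  have he : ∀ X, e X = (2 * n)⁻¹ • (A X + A Xᵀ) := by
    intro X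
    rw [← hTA]
    rfl
  have hproj2 : LinearMap.IsProj W e := by
    refine ⟨fun X => ?_, fun X hX => ?_⟩
    · rw [he]
      refine Submodule.smul_mem _ _ ⟨Submodule.add_mem _ (hAinv X) (hAinv _), ?_⟩
      rw [transpose_add, hAtr, hAtr, transpose_transpose, add_comm]
    · rw [he, hX.2, hAid X hX.1, ← two_smul ℚ (n • X), smul_smul, smul_smul, mul_assoc,
        inv_mul_cancel₀ (mul_ne_zero two_ne_zero hn), one_smul]
  have h1 := hproj.trace
  have h2 := hproj2.trace
  have hT0 : LinearMap.trace ℚ _ T = 0 := by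
    show LinearMap.trace ℚ _ (∑ σ : P, opT (ρ σ)ᵀ (ρ σ)) = 0
    rw [map_sum]
    have h3 : ∀ σ : P, LinearMap.trace ℚ _ (opT (ρ σ)ᵀ (ρ σ)) = (ρ (σ ^ 2)).trace := by
      intro σ
      rw [trace_opT, ← transpose_mul, trace_transpose, pow_two, map_mul]
    rw [Finset.sum_congr rfl fun σ _ => h3 σ]
    have hc : (Nat.card P).Coprime 2 := by
      rw [Nat.card_eq_fintype_card]
      exact Nat.coprime_two_right.2 hP
    have h4 := Equiv.sum_comp (powCoprime hc) (fun σ : P => (ρ σ).trace)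
    have h5 : ∀ σ : P, (ρ (σ ^ 2)).trace = (ρ (powCoprime hc σ)).trace := fun σ => rfl
    rw [Finset.sum_congr rfl fun σ _ => h5 σ, h4, ← trace_sum, hsum, trace_zero]
  have h6 : LinearMap.trace ℚ _ A = n * (finrank ℚ (inv ρ) : ℚ) := by
    rw [← h1]
    show _ = n * LinearMap.trace ℚ _ (n⁻¹ • A)
    rw [map_smul, smul_eq_mul, mul_inv_cancel_left₀ hn]
  have h7 : (2 * n)⁻¹ * (n * (finrank ℚ (inv ρ) : ℚ)) = (finrank ℚ W : ℚ) := by
    rw [← h2]
    show _ = LinearMap.trace ℚ _ ((2 * n)⁻¹ • (A + T))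
    rw [map_smul, map_add, hT0, add_zero, h6, smul_eq_mul]
  have h8 : (finrank ℚ (inv ρ) : ℚ) = 2 * (finrank ℚ W : ℚ) := by
    rw [← h7]
    field_simp
  refine ⟨finrank ℚ W, ?_⟩
  have h9 : (finrank ℚ (inv ρ) : ℚ) = ((finrank ℚ W + finrank ℚ W : ℕ) : ℚ) := by
    rw [h8]; push_cast; ring
  exact_mod_cast h9

/-- the space of matrices commuting with the representation -/
def comm : Submodule ℚ (Matrix ι ι ℚ) where
  carrier := {X | ∀ σ : P, X * ρ σ = ρ σ * X}
  add_mem' := by
    intro X Y hX hY σ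
    rw [mul_add, add_mul, hX σ, hY σ]
  zero_mem' := by
    intro σ
    rw [mul_zero, zero_mul]
  smul_mem' := by
    intro c X hX σ
    rw [Matrix.mul_smul, Matrix.smul_mul, hX σ]

lemma sum_sq_eq_zero {v : ι → ℚ} (h : v ⬝ᵥ v = 0) : v = 0 := dotProduct_self_eq_zero.1 h

theorem even_comm (hP : Odd (Fintype.card P)) (hsum : ∑ σ, ρ σ = 0) :
    Even (finrank ℚ (comm ρ)) := by
  -- the invariant inner product
  let Gm : Matrix ι ι ℚ := ∑ σ : P, (ρ σ)ᵀ * ρ σ
  have hG : ∀ τ : P, (ρ τ)ᵀ * Gm * ρ τ = Gm := by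
    intro τ
    show (ρ τ)ᵀ * (∑ σ : P, (ρ σ)ᵀ * ρ σ) * ρ τ = ∑ σ : P, (ρ σ)ᵀ * ρ σ
    rw [Finset.mul_sum, Finset.sum_mul,
      ← Equiv.sum_comp (Equiv.mulRight τ) (fun σ : P => (ρ σ)ᵀ * ρ σ)]
    refine Finset.sum_congr rfl fun σ _ => ?_
    rw [Equiv.coe_mulRight, map_mul, transpose_mul]
    simp only [Matrix.mul_assoc]
  have hinj : ∀ v : ι → ℚ, Gm *ᵥ v = 0 → v = 0 := by
    intro v hv
    have h1 : v ⬝ᵥ (Gm *ᵥ v) = ∑ σ : P, (ρ σ *ᵥ v) ⬝ᵥ (ρ σ *ᵥ v) := by
      show v ⬝ᵥ ((∑ σ : P, (ρ σ)ᵀ * ρ σ) *ᵥ v) = _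
      rw [Matrix.sum_mulVec, dotProduct_sum]
      refine Finset.sum_congr rfl fun σ _ => ?_
      rw [← Matrix.mulVec_mulVec, Matrix.mulVec_transpose, dotProduct_comm,
        ← Matrix.dotProduct_mulVec]
    rw [hv, dotProduct_zero] at h1
    have h2 : ∀ σ ∈ Finset.univ, (0 : ℚ) ≤ (ρ σ *ᵥ v) ⬝ᵥ (ρ σ *ᵥ v) := by
      intro σ _
      exact Finset.sum_nonneg fun i _ => mul_self_nonneg _
    have h3 := (Finset.sum_eq_zero_iff_of_nonneg h2).1 h1.symm 1 (Finset.mem_univ _)
    rw [map_one, Matrix.one_mulVec] at h3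
    exact sum_sq_eq_zero h3
  have hdet : IsUnit Gm := by
    rw [← Matrix.mulVec_injective_iff_isUnit]
    intro v w hvw
    have h1 : Gm *ᵥ (v - w) = 0 := by
      rw [Matrix.mulVec_sub]
      exact sub_eq_zero.2 hvw
    exact sub_eq_zero.1 (hinj _ h1)
  have hdet' : IsUnit Gm.det := (Matrix.isUnit_iff_isUnit_det _).1 hdet
  have hρ : ∀ σ : P, ρ σ * ρ σ⁻¹ = 1 := by
    intro σ
    rw [← map_mul, mul_inv_cancel, map_one]
  have hρ' : ∀ σ : P, ρ σ⁻¹ * ρ σ = 1 := by
    intro σ
    rw [← map_mul, inv_mul_cancel, map_one]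
  have hρt : ∀ σ : P, (ρ σ)ᵀ * Gm = Gm * ρ σ⁻¹ := by
    intro σ
    have := congrArg (fun X => X * ρ σ⁻¹) (hG σ)
    rw [Matrix.mul_assoc, hρ, Matrix.mul_one] at this
    exact this
  have key : ∀ X, X ∈ comm ρ ↔ Gm * X ∈ inv ρ := by
    intro X
    constructor
    · intro hX σ
      rw [← Matrix.mul_assoc, hρt, Matrix.mul_assoc, Matrix.mul_assoc, hX σ,
        ← Matrix.mul_assoc (ρ σ⁻¹), hρ', Matrix.one_mul]
    · intro hX σ
      have h1 := hX σ
      rw [← Matrix.mul_assoc, hρt] at h1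
      have h2 : Gm * (ρ σ⁻¹ * X * ρ σ) = Gm * X := by
        rw [← h1]; simp only [Matrix.mul_assoc]
      have h3 : ρ σ⁻¹ * X * ρ σ = X := by
        have := congrArg (fun Z => Gm⁻¹ * Z) h2
        simp only [← Matrix.mul_assoc, Matrix.nonsing_inv_mul _ hdet', Matrix.one_mul] at this
        exact this
      calc X * ρ σ = 1 * X * ρ σ := by rw [Matrix.one_mul]
        _ = ρ σ * (ρ σ⁻¹ * X * ρ σ) := by rw [← hρ σ]; simp only [Matrix.mul_assoc]
        _ = ρ σ * X := by rw [h3]
  let f : comm ρ ≃ₗ[ℚ] inv ρ :=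
    { toFun := fun X => ⟨Gm * X, (key _).1 X.2⟩
      map_add' := fun X Y => Subtype.ext (by simp [mul_add])
      map_smul' := fun c X => Subtype.ext (by simp)
      invFun := fun Y => ⟨Gm⁻¹ * Y, (key _).2 (by
        rw [← Matrix.mul_assoc, Matrix.mul_nonsing_inv _ hdet', Matrix.one_mul]
        exact Y.2)⟩
      left_inv := fun X => Subtype.ext (by
        show Gm⁻¹ * (Gm * (X : Matrix ι ι ℚ)) = X
        rw [← Matrix.mul_assoc, Matrix.nonsing_inv_mul _ hdet', Matrix.one_mul])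
      right_inv := fun X => Subtype.ext (by
        show Gm * (Gm⁻¹ * (X : Matrix ι ι ℚ)) = X
        rw [← Matrix.mul_assoc, Matrix.mul_nonsing_inv _ hdet', Matrix.one_mul]) }
  rw [f.finrank_eq]
  exact even_inv ρ hP hsum

end Trace

section Mod

open MonoidAlgebra

variable {P : Type} [Group P] [Fintype P] {S : Type} [AddCommGroup S] [Module ℚ S]
  [Module (MonoidAlgebra ℚ P) S] [IsScalarTower ℚ (MonoidAlgebra ℚ P) S]
  [FiniteDimensional ℚ S]

/-- the action of a group element -/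
noncomputable def actL (σ : P) : S →ₗ[ℚ] S where
  toFun v := MonoidAlgebra.single σ (1 : ℚ) • v
  map_add' v w := smul_add _ _ _
  map_smul' a v := by rw [RingHom.id_apply]; exact smul_comm _ _ _

/-- The endomorphism ring of a module without invariants over the rational group algebra of a group
of odd order has even dimension. -/
theorem even_finrank_end (hP : Odd (Fintype.card P))
    (hinv : ∀ v : S, ∑ σ : P, MonoidAlgebra.single σ (1 : ℚ) • v = 0) :
    Even (finrank ℚ (S →ₗ[MonoidAlgebra ℚ P] S)) := by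
  classical
  let b := Module.finBasis ℚ S
  have hmul : ∀ σ τ : P, (actL (σ * τ) : S →ₗ[ℚ] S) = actL σ ∘ₗ actL τ := by
    intro σ τ
    ext v
    show MonoidAlgebra.single (σ * τ) (1 : ℚ) • v = MonoidAlgebra.single σ (1 : ℚ) • MonoidAlgebra.single τ (1 : ℚ) • v
    rw [← mul_smul, MonoidAlgebra.single_mul_single, one_mul]
  have hone : (actL (1 : P) : S →ₗ[ℚ] S) = LinearMap.id := by
    ext v
    show MonoidAlgebra.single (1 : P) (1 : ℚ) • v = v
    exact one_smul _ v
  let ρ : P →* Matrix (Fin (finrank ℚ S)) (Fin (finrank ℚ S)) ℚ :=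
    { toFun := fun σ => LinearMap.toMatrix b b (actL σ)
      map_one' := by rw [hone, LinearMap.toMatrix_id]
      map_mul' := fun σ τ => by rw [hmul, LinearMap.toMatrix_comp b b b] }
  have hρ : ∀ σ, ρ σ = LinearMap.toMatrix b b (actL σ) := fun _ => rfl
  have hsum : ∑ σ, ρ σ = 0 := by
    simp_rw [hρ]
    rw [← map_sum]
    have : (∑ σ : P, actL σ : S →ₗ[ℚ] S) = 0 := by
      ext v
      rw [LinearMap.sum_apply]
      exact hinv v
    rw [this, map_zero]
  let f : (S →ₗ[MonoidAlgebra ℚ P] S) ≃ₗ[ℚ] comm ρ :=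
    { toFun := fun φ => ⟨LinearMap.toMatrix b b (φ.restrictScalars ℚ), by
        intro σ
        rw [hρ, ← LinearMap.toMatrix_comp, ← LinearMap.toMatrix_comp]
        congr 1
        ext v
        exact φ.map_smul _ v⟩
      map_add' := fun φ ψ => Subtype.ext (by
        show LinearMap.toMatrix b b ((φ + ψ).restrictScalars ℚ) = _
        rw [LinearMap.restrictScalars_add, map_add]
        rfl)
      map_smul' := fun c φ => Subtype.ext (by
        show LinearMap.toMatrix b b ((c • φ).restrictScalars ℚ)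
          = c • LinearMap.toMatrix b b (φ.restrictScalars ℚ)
        rw [← map_smul]
        rfl)
      invFun := fun X => MonoidAlgebra.equivariantOfLinearOfComm (Matrix.toLin b b X.1) (by
        intro σ v
        have h1 := congrArg (fun Z => Matrix.toLin b b Z v) (X.2 σ)
        simp only [Matrix.toLin_mul b b b, hρ, Matrix.toLin_toMatrix, LinearMap.comp_apply] at h1
        exact h1)
      left_inv := fun φ => by
        ext v
        show Matrix.toLin b b (LinearMap.toMatrix b b (φ.restrictScalars ℚ)) v = φ v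
        rw [Matrix.toLin_toMatrix]
        rfl
      right_inv := fun X => Subtype.ext (by
        show LinearMap.toMatrix b b (Matrix.toLin b b X.1) = X.1
        exact LinearMap.toMatrix_toLin _ _ _) }
  rw [f.finrank_eq]
  exact even_comm ρ hP hsum

/-- A module with nontrivial action over the rational group algebra of a group of order prime to
`6` has dimension at least `4`. -/
theorem four_le_finrank (hP : (Fintype.card P).Coprime 6)
    (hnt : ∃ (σ : P) (s : S), MonoidAlgebra.single σ (1 : ℚ) • s ≠ s) :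
    4 ≤ finrank ℚ S := by
  classical
  obtain ⟨σ, s, hs⟩ := hnt
  let ρ : P →* (S →ₗ[ℚ] S) :=
    { toFun := actL
      map_one' := by
        ext v
        show MonoidAlgebra.single (1 : P) (1 : ℚ) • v = v
        exact one_smul _ v
      map_mul' := fun σ τ => by
        ext v
        show MonoidAlgebra.single (σ * τ) (1 : ℚ) • v
          = MonoidAlgebra.single σ (1 : ℚ) • MonoidAlgebra.single τ (1 : ℚ) • v
        rw [← mul_smul, MonoidAlgebra.single_mul_single, one_mul] }
  have hρ : ρ σ ≠ 1 := by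
    intro h
    apply hs
    have := congrArg (fun f => f s) h
    exact this
  have hfin : IsOfFinOrder (ρ σ) := ρ.isOfFinOrder (isOfFinOrder_of_finite σ)
  have hdvd : orderOf (ρ σ) ∣ Fintype.card P := (orderOf_map_dvd ρ σ).trans orderOf_dvd_card
  have ho1 : orderOf (ρ σ) ≠ 1 := by
    rw [Ne, orderOf_eq_one_iff]
    exact hρ
  obtain ⟨l, hl, hlo⟩ := Nat.exists_prime_and_dvd ho1
  have hl5 : 5 ≤ l := by
    have h1 : l ∣ Fintype.card P := hlo.trans hdvd
    have h2 : l.Coprime 6 := Nat.Coprime.coprime_dvd_left h1 hP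
    by_contra h5
    push Not at h5
    have := hl.two_le
    interval_cases l
    · exact absurd h2 (by decide)
    · exact absurd h2 (by decide)
    · exact absurd hl (by decide)
  obtain ⟨c, hc⟩ := hlo
  have hc0 : c ≠ 0 := by
    rintro rfl
    rw [mul_zero] at hc
    exact (orderOf_pos_iff.2 hfin).ne' hc
  set T : S →ₗ[ℚ] S := ρ σ ^ c with hT
  have hTo : orderOf T = l := by
    rw [hT, orderOf_pow_of_dvd hc0 ⟨l, by rw [hc, mul_comm]⟩, hc]
    exact Nat.mul_div_cancel _ (Nat.pos_of_ne_zero hc0)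
  have hT1 : T ≠ 1 := by
    intro h
    rw [h, orderOf_one] at hTo
    exact hl.one_lt.ne hTo
  have hTl : T ^ l = 1 := by rw [← hTo]; exact pow_orderOf_eq_one T
  have hlpos : 0 < l := hl.pos
  have h1 : minpoly ℚ T ∣ Polynomial.X ^ l - 1 := by
    apply minpoly.dvd
    simp [hTl]
  have hcyc : (Polynomial.X - 1) * Polynomial.cyclotomic l ℚ = Polynomial.X ^ l - 1 := by
    have : Fact l.Prime := ⟨hl⟩
    rw [mul_comm]
    exact Polynomial.cyclotomic_prime_mul_X_sub_one ℚ l
  have hirr : Irreducible (Polynomial.cyclotomic l ℚ) :=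
    Polynomial.cyclotomic.irreducible_rat hlpos
  have h2 : Polynomial.cyclotomic l ℚ ∣ minpoly ℚ T := by
    rcases (dvd_or_isCoprime _ (minpoly ℚ T) hirr) with h3 | h3
    · exact h3
    · exfalso
      rw [← hcyc] at h1
      have h4 : minpoly ℚ T ∣ (Polynomial.X - 1) :=
        (IsCoprime.symm h3).dvd_of_dvd_mul_right h1
      apply hT1
      have h5 : Polynomial.aeval T (Polynomial.X - 1 : Polynomial ℚ) = 0 := by
        obtain ⟨g, hg⟩ := h4
        rw [hg, map_mul, minpoly.aeval, zero_mul]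
      simp only [map_sub, Polynomial.aeval_X, map_one] at h5
      exact sub_eq_zero.1 h5
  have hint : IsIntegral ℚ T := Algebra.IsIntegral.isIntegral T
  have h3 : (Polynomial.cyclotomic l ℚ).natDegree ≤ (minpoly ℚ T).natDegree :=
    Polynomial.natDegree_le_of_dvd h2 (minpoly.ne_zero hint)
  rw [Polynomial.natDegree_cyclotomic, Nat.totient_prime hl] at h3
  have h4 : (minpoly ℚ T).natDegree ≤ finrank ℚ S := by
    have h5 := Polynomial.natDegree_le_of_dvd (LinearMap.minpoly_dvd_charpoly T)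
      (LinearMap.charpoly_monic T).ne_zero
    rwa [LinearMap.charpoly_natDegree] at h5
  omega

end Mod

end Pool.Agent.Lib.MP_938ce2_ag_h79
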