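import Mathlib

/-! # The numerical estimate -/

set_option autoImplicit false

open Finset Real Module

namespace Pool.Agent.Lib.MP_938ce2_ag_h79

/-- If all primes q with n < q <= 2 ^ r * n divide g then some divisor of g is at least n ^ r. -/
theorem exists_divisor (g n : ℕ) (hn : n ≠ 0) : ∀ r : ℕ,
    (∀ q : ℕ, q.Prime → n < q → q ≤ 2 ^ r * n → q ∣ g) →
    ∃ P : ℕ, P ∣ g ∧ n ^ r ≤ P ∧ ∀ p : ℕ, p.Prime → p ∣ P → p ≤ 2 ^ r * n := by
  intro r
  induction r with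
  | zero =>
    intro _
    refine ⟨1, one_dvd _, by simp, ?_⟩
    intro p hp h
    exact absurd (Nat.dvd_one.1 h) hp.ne_one
  | succ r ih =>
    intro h
    have hle : 2 ^ r * n ≤ 2 ^ (r + 1) * n :=
      Nat.mul_le_mul_right _ (Nat.pow_le_pow_right (by norm_num) (by omega))
    obtain ⟨P, hP1, hP2, hP3⟩ := ih (fun q hq h1 h2 => h q hq h1 (h2.trans hle))
    have hne : 2 ^ r * n ≠ 0 := by positivity
    obtain ⟨p, hp, hp1, hp2⟩ := Nat.exists_prime_lt_and_le_two_mul (2 ^ r * n) hne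
    have hp2' : p ≤ 2 ^ (r + 1) * n := by
      calc p ≤ 2 * (2 ^ r * n) := hp2
        _ = 2 ^ (r + 1) * n := by ring
    have hn2 : n ≤ 2 ^ r * n := Nat.le_mul_of_pos_left _ (by positivity)
    have hpg : p ∣ g := h p hp (lt_of_le_of_lt hn2 hp1) hp2'
    have hcop : Nat.Coprime P p := by
      rw [Nat.coprime_comm]
      exact (Nat.Prime.coprime_iff_not_dvd hp).2 fun hd => absurd (hP3 p hp hd) (not_le.2 hp1)
    refine ⟨P * p, Nat.Coprime.mul_dvd_of_dvd_of_dvd hcop hP1 hpg, ?_, ?_⟩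
    · rw [pow_succ]
      exact Nat.mul_le_mul hP2 (hn2.trans hp1.le)
    · intro q hq hd
      rcases (Nat.Prime.dvd_mul hq).1 hd with h1 | h1
      · exact (hP3 q hq h1).trans hle
      · rw [(Nat.prime_dvd_prime_iff_eq hq hp).1 h1]
        exact hp2'

theorem exists_prime_not_dvd (g n : ℕ) (hn : n ≠ 0) (hg : 0 < g) (h : g < n ^ 6) :
    ∃ q : ℕ, q.Prime ∧ n < q ∧ q ≤ 64 * n ∧ ¬ q ∣ g := by
  by_contra hcon
  push Not at hcon
  obtain ⟨P, h1, h2, _⟩ := exists_divisor g n hn 6 (fun q hq hq1 hq2 =>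
    hcon q hq hq1 (by norm_num at hq2; exact hq2))
  have := Nat.le_of_dvd hg h1
  omega

/-- the bound for one type with few multiplicities -/
theorem single_bound (g m e : ℕ) (N : ℝ) (L : ℝ) (hL : L = log g) (hL1 : 1 ≤ L)
    (hm : 1 ≤ m) (he : 4 ≤ e) (hm2 : (m : ℝ) ^ 2 ≤ 6 * L * g)
    (hg : (2 : ℝ) ^ 92 * L ^ 9 ≤ g)
    (hN : ∀ q : ℕ, q.Prime → q ≠ 2 → ¬ q ∣ g →
      N ≤ (1 + ((q : ℝ) - 1) * exp (-(2 * g / (m * (q : ℝ) ^ 2)))) ^ m / ((q : ℝ) - 1) ^ e) :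
    N ≤ 3 * 2 ^ 28 * (m : ℝ) ^ 2 * L ^ 2 / (g : ℝ) ^ 2 := by
  have hL0 : 0 < L := by linarith
  have hL9 : 1 ≤ L ^ 9 := one_le_pow₀ hL1
  have hgbig : (2 : ℝ) ^ 92 ≤ g := by nlinarith
  have hg0 : (0 : ℝ) < g := by
    have : (0 : ℝ) < 2 ^ 92 := by positivity
    linarith
  have hm0 : (0 : ℝ) < m := by exact_mod_cast hm
  set y : ℝ := g / (m * L) with hy
  have hy0 : 0 < y := by positivity
  -- y ^ 2 ≥ g / (6 L ^ 3)
  have F1 : (g : ℝ) / (6 * L ^ 3) ≤ y ^ 2 := by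
    rw [hy, div_pow, div_le_div_iff₀ (by positivity) (by positivity)]
    have : (m * L) ^ 2 = (m : ℝ) ^ 2 * L ^ 2 := by ring
    rw [this]
    calc (g : ℝ) * ((m : ℝ) ^ 2 * L ^ 2) ≤ g * ((6 * L * g) * L ^ 2) := by gcongr
      _ = (g : ℝ) ^ 2 * (6 * L ^ 3) := by ring
  have F2 : (2 : ℝ) ^ 42 * g ≤ y ^ 3 := by
    have h1 : ((2 : ℝ) ^ 42 * g) ^ 2 ≤ (y ^ 3) ^ 2 := by
      have h2 : (y ^ 3) ^ 2 = (y ^ 2) ^ 3 := by ring
      rw [h2]
      have h3 : ((g : ℝ) / (6 * L ^ 3)) ^ 3 ≤ (y ^ 2) ^ 3 := by gcongr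
      refine le_trans ?_ h3
      rw [div_pow, le_div_iff₀ (by positivity)]
      have h4 : ((2 : ℝ) ^ 42 * g) ^ 2 * (6 * L ^ 3) ^ 3 = (2 ^ 84 * 216 * L ^ 9) * g ^ 2 := by ring
      rw [h4]
      have h5 : (2 : ℝ) ^ 84 * 216 * L ^ 9 ≤ 2 ^ 92 * L ^ 9 := by
        have : (2 : ℝ) ^ 84 * 216 ≤ 2 ^ 92 := by norm_num
        exact mul_le_mul_of_nonneg_right this (by positivity)
      calc (2 ^ 84 * 216 * L ^ 9) * (g : ℝ) ^ 2 ≤ g * g ^ 2 := by
            apply mul_le_mul_of_nonneg_right (h5.trans hg) (by positivity)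
        _ = (g : ℝ) ^ 3 := by ring
    exact le_of_sq_le_sq h1 (by positivity)
  set Y : ℝ := Real.sqrt y with hY
  have hYsq : Y ^ 2 = y := Real.sq_sqrt hy0.le
  have hY0 : 0 < Y := Real.sqrt_pos.2 hy0
  have hY6 : Y ^ 6 = y ^ 3 := by rw [← hYsq]; ring
  have hY128 : (128 : ℝ) ≤ Y := by
    by_contra hcon
    push Not at hcon
    have h1 : Y ^ 6 < 128 ^ 6 := by gcongr
    rw [hY6] at h1
    have h2 : (2 : ℝ) ^ 42 * 2 ^ 92 ≤ 2 ^ 42 * g := by gcongr
    have h3 : (128 : ℝ) ^ 6 < 2 ^ 42 * 2 ^ 92 := by norm_num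
    linarith
  set n : ℕ := ⌊Y / 64⌋₊ with hn
  have hn1 : (n : ℝ) ≤ Y / 64 := Nat.floor_le (by positivity)
  have hn2 : Y / 64 < n + 1 := Nat.lt_floor_add_one _
  have hn3 : Y / 128 ≤ n := by linarith
  have hn4 : (1 : ℝ) ≤ n := by linarith
  have hn5 : 1 ≤ n := by exact_mod_cast hn4
  have hgn : g ≤ n ^ 6 := by
    have h1 : (g : ℝ) ≤ (n : ℝ) ^ 6 := by
      have h2 : (Y / 128) ^ 6 ≤ (n : ℝ) ^ 6 := by gcongr
      refine le_trans ?_ h2
      rw [div_pow, hY6, le_div_iff₀ (by positivity)]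
      calc (g : ℝ) * 128 ^ 6 = 2 ^ 42 * g := by ring
        _ ≤ y ^ 3 := F2
    exact_mod_cast h1
  -- a prime not dividing g
  have hq : ∃ q : ℕ, q.Prime ∧ n < q ∧ q ≤ 64 * n ∧ ¬ q ∣ g := by
    rcases Nat.lt_or_ge g (n ^ 6) with h | h
    · refine exists_prime_not_dvd g n (by omega) ?_ h
      exact_mod_cast hg0
    · -- equality case: use the same argument with strict inequality of the first prime
      by_contra hcon
      push Not at hcon
      have hge : g = n ^ 6 := le_antisymm hgn h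
      -- some prime in (n, 2n] divides n ^ 6, hence n
      obtain ⟨p, hp, hp1, hp2⟩ := Nat.exists_prime_lt_and_le_two_mul n (by omega)
      have hd := hcon p hp hp1 (by omega)
      rw [hge] at hd
      have := Nat.le_of_dvd (by omega) (hp.dvd_of_dvd_pow hd)
      omega
  obtain ⟨q, hqp, hq1, hq2, hq3⟩ := hq
  have hq1' : (n : ℝ) ≤ (q : ℝ) - 1 := by
    have : n + 1 ≤ q := hq1
    have h : ((n + 1 : ℕ) : ℝ) ≤ q := by exact_mod_cast this
    push_cast at h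
    linarith
  have hq2' : (q : ℝ) ≤ Y := by
    have h : ((q : ℕ) : ℝ) ≤ ((64 * n : ℕ) : ℝ) := by exact_mod_cast hq2
    push_cast at h
    linarith
  have hq0 : (0 : ℝ) < q := by linarith
  have hqsq : (q : ℝ) ^ 2 ≤ y := by
    rw [← hYsq]
    gcongr
  have hqne : q ≠ 2 := by
    rintro rfl
    have : n < 2 := hq1
    have hn1' : n = 1 := by omega
    rw [hn1'] at hgn
    have : (g : ℝ) ≤ 1 := by exact_mod_cast (by simpa using hgn)
    have h2 : (1 : ℝ) < 2 ^ 92 := by norm_num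
    linarith
  have hmain := hN q hqp hqne hq3
  -- the exponential
  have hmq : (m : ℝ) * (q : ℝ) ^ 2 * L ≤ g := by
    have : (m : ℝ) * (q : ℝ) ^ 2 * L ≤ m * y * L := by gcongr
    refine this.trans (le_of_eq ?_)
    rw [hy]
    field_simp
  have hexp : exp (-(2 * g / (m * (q : ℝ) ^ 2))) ≤ 1 / (g : ℝ) ^ 2 := by
    have h1 : 2 * L ≤ 2 * g / (m * (q : ℝ) ^ 2) := by
      rw [le_div_iff₀ (by positivity)]
      nlinarith
    have h2 : exp (-(2 * g / (m * (q : ℝ) ^ 2))) ≤ exp (-(2 * L)) := by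
      apply exp_le_exp.2
      linarith
    refine h2.trans (le_of_eq ?_)
    rw [hL, exp_neg, one_div]
    congr 1
    rw [two_mul, exp_add, exp_log hg0]
    ring
  have hx : ((q : ℝ) - 1) * exp (-(2 * g / (m * (q : ℝ) ^ 2))) ≤ 1 / m := by
    have hq1n : 0 ≤ (q : ℝ) - 1 := by linarith
    calc ((q : ℝ) - 1) * exp (-(2 * g / (m * (q : ℝ) ^ 2)))
        ≤ ((q : ℝ) - 1) * (1 / (g : ℝ) ^ 2) := by gcongr
      _ ≤ 1 / m := by
        rw [mul_one_div, div_le_div_iff₀ (by positivity) hm0, one_mul]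
        have h1 : (q : ℝ) - 1 ≤ (q : ℝ) ^ 2 := by nlinarith
        have h2 : (m : ℝ) * (q : ℝ) ^ 2 ≤ g := by
          have h3 : (m : ℝ) * (q : ℝ) ^ 2 ≤ (m : ℝ) * (q : ℝ) ^ 2 * L := by
            have : 0 ≤ (m : ℝ) * (q : ℝ) ^ 2 := by positivity
            nlinarith
          linarith
        have h4 : (1 : ℝ) ≤ g := by
          have : (1 : ℝ) ≤ 2 ^ 92 := by norm_num
          linarith
        calc ((q : ℝ) - 1) * m ≤ (q : ℝ) ^ 2 * m := by gcongr
          _ ≤ g := by linarith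
          _ ≤ (g : ℝ) ^ 2 := by nlinarith
  have hx0 : 0 ≤ ((q : ℝ) - 1) * exp (-(2 * g / (m * (q : ℝ) ^ 2))) := by
    have : 0 ≤ (q : ℝ) - 1 := by linarith
    positivity
  have hpow : (1 + ((q : ℝ) - 1) * exp (-(2 * g / (m * (q : ℝ) ^ 2)))) ^ m ≤ 3 := by
    calc (1 + ((q : ℝ) - 1) * exp (-(2 * g / (m * (q : ℝ) ^ 2)))) ^ m
        ≤ (exp (1 / m)) ^ m := by
          gcongr
          refine le_trans ?_ (add_one_le_exp _)
          linarith
      _ = exp 1 := by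
          rw [← exp_nat_mul]
          congr 1
          field_simp
      _ ≤ 3 := by
          have := exp_one_lt_d9
          linarith
  have hq4 : y ^ 2 / 2 ^ 28 ≤ ((q : ℝ) - 1) ^ e := by
    have h1 : (1 : ℝ) ≤ (q : ℝ) - 1 := by linarith
    calc y ^ 2 / 2 ^ 28 = (Y / 128) ^ 4 := by rw [← hYsq]; ring
      _ ≤ ((q : ℝ) - 1) ^ 4 := by
        have : Y / 128 ≤ (q : ℝ) - 1 := by linarith
        gcongr
      _ ≤ ((q : ℝ) - 1) ^ e := pow_le_pow_right₀ h1 he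
  calc N ≤ _ := hmain
    _ ≤ 3 / (y ^ 2 / 2 ^ 28) := by
      apply div_le_div₀ (by norm_num) hpow (by positivity) hq4
    _ = 3 * 2 ^ 28 * (m : ℝ) ^ 2 * L ^ 2 / (g : ℝ) ^ 2 := by
      rw [hy]
      field_simp

theorem numeric : ∃ C : ℝ, 0 < C ∧ ∀ (ι : Type) [Fintype ι] (g : ℕ) (m k e : ι → ℕ) (N : ι → ℝ),
    2 ≤ g → (∀ i, 1 ≤ m i) → (∀ i, 1 ≤ k i) → (∀ i, 4 ≤ e i) → (∀ i, m i ≤ k i * e i) →
    (∑ i, k i * m i ≤ g) →
    (∀ i, N i ≤ (2 : ℝ) ^ (-(e i : ℝ) / 2)) →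
    (∀ (i) (q : ℕ), q.Prime → q ≠ 2 → ¬ q ∣ g →
      N i ≤ (1 + ((q : ℝ) - 1) * exp (-(2 * g / (m i * (q : ℝ) ^ 2)))) ^ m i
        / ((q : ℝ) - 1) ^ e i) →
    ∑ i, N i ≤ C * log g ^ 3 / g := by
  classical
  -- the threshold
  have hlit := (isLittleO_pow_log_id_atTop (n := 9)).def (c := 1 / 2 ^ 92) (by positivity)
  obtain ⟨x0, hx0⟩ := Filter.eventually_atTop.1 hlit
  set G : ℝ := max x0 3 with hG
  have hG3 : 3 ≤ G := le_max_right _ _
  refine ⟨18 * 2 ^ 28 + 1 + 8 * G ^ 2, by positivity, ?_⟩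
  intro ι _ g m k e N hg hm hk he hmke hsum hN1 hN2
  have hgR : (2 : ℝ) ≤ g := by exact_mod_cast hg
  have hg0 : (0 : ℝ) < g := by linarith
  have hcardι : (Fintype.card ι : ℝ) ≤ g := by
    have : Fintype.card ι ≤ g := by
      calc Fintype.card ι = ∑ _i : ι, 1 := by simp
        _ ≤ ∑ i, k i * m i := sum_le_sum fun i _ => by
          have := hm i
          have := hk i
          nlinarith
        _ ≤ g := hsum
    exact_mod_cast this
  have hsumR : ∑ i, (k i : ℝ) * m i ≤ g := by exact_mod_cast hsum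
  set L : ℝ := log g with hL
  have hLhalf : (1 : ℝ) / 2 ≤ L := by
    have h1 : log 2 ≤ L := log_le_log (by norm_num) hgR
    have h2 := log_two_gt_d9
    linarith
  rcases lt_or_ge (g : ℝ) G with hsmall | hbig
  · -- small g
    have h1 : ∑ i, N i ≤ g := by
      calc ∑ i, N i ≤ ∑ _i : ι, (1 : ℝ) := by
            refine sum_le_sum fun i _ => (hN1 i).trans ?_
            apply rpow_le_one_of_one_le_of_nonpos (by norm_num)
            have : (0 : ℝ) ≤ e i := by positivity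
            linarith
        _ = Fintype.card ι := by simp
        _ ≤ g := hcardι
    refine h1.trans ?_
    rw [le_div_iff₀ hg0]
    have hL3 : (1 : ℝ) / 8 ≤ L ^ 3 := by
      calc (1 : ℝ) / 8 = (1 / 2) ^ 3 := by norm_num
        _ ≤ L ^ 3 := by gcongr
    have h2 : (g : ℝ) * g ≤ G ^ 2 := by nlinarith
    have h3 : 8 * G ^ 2 ≤ 18 * 2 ^ 28 + 1 + 8 * G ^ 2 := by
      have : (0 : ℝ) ≤ 18 * 2 ^ 28 + 1 := by norm_num
      linarith
    calc (g : ℝ) * g ≤ G ^ 2 := h2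
      _ = (8 * G ^ 2) * (1 / 8) := by ring
      _ ≤ (18 * 2 ^ 28 + 1 + 8 * G ^ 2) * L ^ 3 := by
        apply mul_le_mul h3 hL3 (by norm_num) (by positivity)
  · -- large g
    have hL1 : 1 ≤ L := by
      have h1 : log 3 ≤ L := log_le_log (by norm_num) (hG3.trans hbig)
      have h2 : (1 : ℝ) ≤ log 3 := by
        rw [le_log_iff_exp_le (by norm_num)]
        have := exp_one_lt_d9
        linarith
      linarith
    have hL0 : 0 < L := by linarith
    have hg92 : (2 : ℝ) ^ 92 * L ^ 9 ≤ g := by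
      have h := hx0 g ((le_max_left _ _).trans hbig)
      simp only [id_eq, norm_eq_abs] at h
      rw [abs_of_pos (by positivity), abs_of_pos hg0] at h
      have h' : (2 : ℝ) ^ 92 * L ^ 9 ≤ 2 ^ 92 * (1 / 2 ^ 92 * g) := by gcongr
      refine h'.trans (le_of_eq ?_)
      field_simp
    have hterm : ∀ i, N i ≤ 1 / (g : ℝ) ^ 2 + 3 * 2 ^ 28 * (6 * L) * L ^ 2 / (g : ℝ) ^ 2 *
        ((k i : ℝ) * m i) := by
      intro i
      have hkm0 : (0 : ℝ) ≤ (k i : ℝ) * m i := by positivity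
      rcases lt_or_ge (e i : ℝ) (6 * L) with hlt | hge
      · have hm2 : (m i : ℝ) ^ 2 ≤ 6 * L * ((k i : ℝ) * m i) := by
          have h1 : (m i : ℝ) ≤ k i * e i := by exact_mod_cast hmke i
          calc (m i : ℝ) ^ 2 = m i * m i := by ring
            _ ≤ m i * (k i * e i) := by gcongr
            _ ≤ m i * (k i * (6 * L)) := by gcongr
            _ = 6 * L * ((k i : ℝ) * m i) := by ring
        have hkm : (k i : ℝ) * m i ≤ g := by
          refine le_trans ?_ hsumR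
          exact single_le_sum (f := fun i => (k i : ℝ) * m i) (fun j _ => by positivity)
            (mem_univ i)
        have h2 := single_bound g (m i) (e i) (N i) L rfl hL1 (hm i) (he i)
          (hm2.trans (by gcongr)) hg92 (hN2 i)
        have h3 : 3 * 2 ^ 28 * (m i : ℝ) ^ 2 * L ^ 2 / (g : ℝ) ^ 2 ≤
            3 * 2 ^ 28 * (6 * L) * L ^ 2 / (g : ℝ) ^ 2 * ((k i : ℝ) * m i) := by
          rw [div_mul_eq_mul_div]
          apply div_le_div_of_nonneg_right _ (by positivity)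
          calc 3 * 2 ^ 28 * (m i : ℝ) ^ 2 * L ^ 2 ≤
              3 * 2 ^ 28 * (6 * L * ((k i : ℝ) * m i)) * L ^ 2 := by gcongr
            _ = 3 * 2 ^ 28 * (6 * L) * L ^ 2 * ((k i : ℝ) * m i) := by ring
        have h4 : (0 : ℝ) ≤ 1 / (g : ℝ) ^ 2 := by positivity
        linarith
      · have h1 : N i ≤ 1 / (g : ℝ) ^ 2 := by
          refine (hN1 i).trans ?_
          have h2 : (2 : ℝ) ^ (-(e i : ℝ) / 2) ≤ (2 : ℝ) ^ (-(3 * L)) := by
            apply rpow_le_rpow_of_exponent_le (by norm_num)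
            linarith
          refine h2.trans ?_
          rw [rpow_def_of_pos (by norm_num)]
          have h3 : log 2 * -(3 * L) ≤ -(2 * L) := by
            have := log_two_gt_d9
            nlinarith
          refine (exp_le_exp.2 h3).trans (le_of_eq ?_)
          rw [exp_neg, one_div]
          congr 1
          rw [two_mul, exp_add, hL, exp_log hg0]
          ring
        have h5 : (0 : ℝ) ≤ 3 * 2 ^ 28 * (6 * L) * L ^ 2 / (g : ℝ) ^ 2 *
            ((k i : ℝ) * m i) := by positivity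
        linarith
    calc ∑ i, N i ≤ ∑ i, (1 / (g : ℝ) ^ 2 + 3 * 2 ^ 28 * (6 * L) * L ^ 2 / (g : ℝ) ^ 2 *
          ((k i : ℝ) * m i)) := sum_le_sum fun i _ => hterm i
      _ = Fintype.card ι * (1 / (g : ℝ) ^ 2) + 3 * 2 ^ 28 * (6 * L) * L ^ 2 / (g : ℝ) ^ 2 *
          ∑ i, (k i : ℝ) * m i := by
        rw [sum_add_distrib, ← mul_sum]
        simp
      _ ≤ g * (1 / (g : ℝ) ^ 2) + 3 * 2 ^ 28 * (6 * L) * L ^ 2 / (g : ℝ) ^ 2 * g := by
        gcongr
      _ = (1 + 18 * 2 ^ 28 * L ^ 3) / g := by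
        field_simp
        ring
      _ ≤ (18 * 2 ^ 28 + 1 + 8 * G ^ 2) * L ^ 3 / g := by
        apply div_le_div_of_nonneg_right _ hg0.le
        have h1 : (1 : ℝ) ≤ L ^ 3 := one_le_pow₀ hL1
        have h2 : 0 ≤ 8 * G ^ 2 * L ^ 3 := by positivity
        nlinarith

end Pool.Agent.Lib.MP_938ce2_ag_h79
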